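import Mathlib
import Pool.Agent.H.MP_20d613_pr.D

namespace Pool.Agent.Results.MP_20d613_pr.Transfer

open MeasureTheory ProbabilityTheory Filter Topology Function Pool.Agent.H.MP_20d613_pr
open Pool.Agent.H.MP_e8a7ad_pr (tm tm_mono)
open scoped ENNReal NNReal

/-- `N t` counts the rings up to time `t` of a Poisson clock of rate `r` -/
structure IsClock {Ω : Type} [MeasurableSpace Ω] (r : ℝ≥0) (N : ℝ≥0 → Ω → ℕ) (P : Measure Ω) :
    Prop where
  meas : ∀ t, Measurable (N t)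
  zero : ∀ ω, N 0 ω = 0
  mono : ∀ ω, Monotone fun t => N t ω
  rc : ∀ ω t, ContinuousWithinAt (fun s => N s ω) (Set.Ici t) t
  indep : HasIndepIncrements N P
  law : ∀ s t, s ≤ t → HasLaw (fun ω => N t ω - N s ω) (poissonMeasure (r * (t - s))) P

/-- the path `X` swaps the values at `x` and `y` when the clock of the pair rings -/
structure Exclusion {I : Type} (N : Sym2 I → ℝ≥0 → ℕ) (X : ℝ≥0 → I → Bool) : Prop where
  rc : ∀ x t, ContinuousWithinAt (fun s => X s x) (Set.Ici t) t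
  stay : ∀ x s t, s ≤ t → (∀ y, N s(x, y) t = N s(x, y) s) → X t x = X s x
  jump : ∀ x y t, 0 < t → (∀ s < t, N s(x, y) s < N s(x, y) t) →
    X t x = leftLim (fun s => X s y) t

lemma law {J S Ω : Type} [MeasurableSpace S] [MeasurableSpace Ω] {P : Measure Ω}
    [IsProbabilityMeasure P] {N : J → ℝ≥0 → Ω → ℕ} {r : J → ℝ≥0} (hN : ∀ e, IsClock (r e) (N e) P)
    (hi : iIndepFun (fun e ω t => N e t ω) P) {g : Ω → S} {ν : Measure S}
    (hg : MeasurePreserving g P ν) (hi' : IndepFun g (fun ω e t => N e t ω) P) (n : ℕ) :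
    MeasurePreserving (fun ω => (g ω, inc (fun e t => N e t ω) n)) P (ν.prod
      (Measure.infinitePi fun _ => Measure.infinitePi fun e => poissonMeasure (r e * (1 / n)))) := by
  have m : ∀ e k, Measurable fun ω => N e (tm n (k + 1)) ω - N e (tm n k) ω :=
    fun e k => ((hN e).meas _).sub ((hN e).meas _)
  have m2 : Measurable fun ω => inc (fun e t => N e t ω) n :=
    measurable_pi_lambda _ fun k => measurable_pi_lambda _ fun e => m e k
  refine ⟨hg.measurable.prodMk m2, ?_⟩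
  have h1 : IndepFun g (fun ω => inc (fun e t => N e t ω) n) P :=
    hi'.comp measurable_id (ψ := fun z : J → ℝ≥0 → ℕ => inc z n) (by unfold inc; fun_prop)
  rw [h1.map_prod_eq_prod_map_map hg.aemeasurable m2.aemeasurable, hg.map_eq]
  congr 1
  have h2 := iIndepFun_uncurry' m
    (hi.comp (fun _ (z : ℝ≥0 → ℕ) k => z (tm n (k + 1)) - z (tm n k)) fun _ => by fun_prop)
    fun e => (hN e).indep.nat (tm_mono n)
  have h3 := (h2.precomp (g := fun p : (_ : ℕ) × J => (p.2, p.1)) (by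
    rintro ⟨a, b⟩ ⟨c, e⟩ h
    simp only [Prod.mk.injEq] at h
    obtain ⟨rfl, rfl⟩ := h
    rfl)).map_fun_eq_infinitePi_map fun p => m _ _
  have h4 : ∀ e k, P.map (fun ω => N e (tm n (k + 1)) ω - N e (tm n k) ω) =
      poissonMeasure (r e * (1 / n)) := fun e k => by
    rw [((hN e).law _ _ (tm_mono n k.le_succ)).map_eq, tm, tm]
    push_cast
    rw [add_div, add_tsub_cancel_left]
  simp only [h4] at h3
  rw [← Measure.infinitePi_map_piCurry (fun (_ : ℕ) (e : J) => poissonMeasure (r e * (1 / n))),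
    ← h3, Measure.map_map (MeasurableEquiv.measurable _) (measurable_pi_lambda _ fun p => m _ _)]
  rfl

theorem result (I : Type) [Countable I] (A : Set (I → Bool)) (hA : MeasurableSet A)
    (hA0 : Measure.infinitePi (fun _ : I => (uniformOn Set.univ : Measure Bool)) A = 0)
    (K : I → I → ℝ≥0) (hK : ∀ x y, K x y = K y x) (C : ℝ≥0) (hC : ∀ x, ∑' y, (K x y : ℝ≥0∞) ≤ C)
    (Ω : Type) [MeasurableSpace Ω] (P : Measure Ω) [IsProbabilityMeasure P]
    (N : Sym2 I → ℝ≥0 → Ω → ℕ) (X : ℝ≥0 → Ω → I → Bool)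
    (hN : ∀ x y, IsClock (K x y) (N s(x, y)) P) (hNi : iIndepFun (fun e ω t => N e t ω) P)
    (hX0 : MeasurePreserving (X 0) P (Measure.infinitePi fun _ => uniformOn Set.univ))
    (hXi : IndepFun (X 0) (fun ω e t => N e t ω) P)
    (hX : ∀ᵐ ω ∂P, Exclusion (fun e t => N e t ω) fun t => X t ω)
    (Ω' : Type) [MeasurableSpace Ω'] (P' : Measure Ω') [IsProbabilityMeasure P']
    (M : I → ℝ≥0 → Ω' → ℕ) (b : Ω' → I × ℕ → Bool)
    (hM : ∀ x, IsClock 1 (M x) P') (hMi : iIndepFun (fun x ω t => M x t ω) P')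
    (hb : MeasurePreserving b P' (Measure.infinitePi fun _ => uniformOn Set.univ))
    (hbi : IndepFun b (fun ω x t => M x t ω) P')
    (h : 0 < P {ω | ∃ t, X t ω ∈ A}) :
    ∃ E, MeasurableSet E ∧ 0 < P' E ∧ ∀ ω ∈ E, ∃ t, (fun x => b ω (x, M x t ω)) ∈ A := by
  have hN' : ∀ e, IsClock (Sym2.lift ⟨K, hK⟩ e) (N e) P := fun e => e.inductionOn hN
  refine main (fun n => by simpa only [one_mul] using law (r := fun _ => 1) hM hMi hb hbi n)
    (fun x => (hM x).zero) (fun x => (hM x).mono) (fun x => (hM x).rc) hA hA0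
    (r := Sym2.lift ⟨K, hK⟩) hC (law hN' hNi hX0 hXi) (hX.mono fun ω hω => ⟨⟨fun e => (hN' e).mono ω,
      fun e => (hN' e).rc ω, hω.stay, hω.jump⟩, hω.rc⟩) h

end Pool.Agent.Results.MP_20d613_pr.Transfer
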